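import Pool.Agent.J6H54.CH.Stm

/-!
# CH-11: range of the lengths
-/

set_option autoImplicit false

namespace Pool.Agent.J6H29.CH11

open Pool.Agent.J6H54.CH

variable {Λ : Type} [AddCommGroup Λ] {σ : Λ ≃ₗ[ℤ] Λ} {T : Finset (Λ × ℤ)} {p q : Λ → ℝ} {R : ℕ}

theorem ht_le (hB : Bd σ T p q R) {w : List (Λ × ℤ)} (hw : Wd T w) :
    (ht w).natAbs ≤ R * w.length := by
  induction w with
  | nil => simp
  | cons a w ih =>
    have h1 := ih (fun t ht => hw t (by simp [ht]))
    have h2 := hB.ht_le a (hw a (by simp))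
    rw [ht_cons, List.length_cons, Nat.mul_succ]
    omega

theorem m11 (h2 : S_metric) : S_range := by
  intro Λ _ σ T p q κ M C0 R C H hT hB
  constructor
  · intro a
    obtain ⟨w, hw, hv, hl⟩ := exists_geo hT a
    rw [← hl, ← hv, val_snd]
    exact ht_le hB hw
  · obtain ⟨C1, hC1⟩ := h2 Λ σ T p q κ M C0 R H hT hB
    obtain ⟨N, hN⟩ := pow_unbounded_of_one_lt C (by norm_num : (1 : ℝ) < 2)
    refine ⟨C1 * (N + 1) + R, fun h v hv => ?_⟩
    obtain ⟨hv1, hv2⟩ := (mem_bx H).1 hv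
    have e1 := hC1 0 h N v (hv2.trans hN.le) (by
      simpa using hv1.trans hN.le)
    have e2 := len_add hT v 0 0 (h : ℤ)
    simp only [map_zero, add_zero, zero_add] at e2
    have e3 := len_vert hT hB (h : ℤ)
    simp only [Int.natAbs_natCast] at e3
    have e4 : C1 * (0 + h + N + 1) ≤ C1 * ((N + 1) * (h + 1)) := by
      apply Nat.mul_le_mul_left
      nlinarith [Nat.zero_le (N * h)]
    have e5 : (C1 * (N + 1) + R) * (h + 1) = C1 * ((N + 1) * (h + 1)) + (R * h + R) := by ring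
    rw [e5]
    omega

end Pool.Agent.J6H29.CH11
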